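import Pool.Agent.MP_bfa999_lc.Mg.Upper

/-!
An MWS code in `m × n` matrices gives one in square matrices of size `min m n`: the column spaces
have pairwise different dimensions, so they do not cover a space of larger dimension.
-/

namespace Pool.Agent.MP_bfa999_lc

open Module

variable {F : Type} [Field F] [Fintype F]

theorem inS_symm {k m n : ℕ} (h : InS F k m n) : InS F k n m := by
  obtain ⟨hm, hn, C, hdim, hN⟩ := h
  let e : Matrix (Fin m) (Fin n) F ≃ₗ[F] Matrix (Fin n) (Fin m) F :=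
    Matrix.transposeLinearEquiv (Fin m) (Fin n) F F
  refine ⟨hn, hm, C.map e.toLinearMap, by rw [LinearEquiv.finrank_map_eq, hdim], ?_⟩
  rw [← hN]
  congr 1
  ext r
  constructor
  · rintro ⟨_, ⟨A, hA, rfl⟩, h0, rfl⟩
    exact ⟨A, hA, fun h => h0 (by rw [h, map_zero]), (Matrix.rank_transpose A).symm⟩
  · rintro ⟨A, hA, h0, rfl⟩
    exact ⟨e A, ⟨A, hA, rfl⟩, fun h => h0 (e.map_eq_zero_iff.1 h), Matrix.rank_transpose A⟩

/-- a scale invariant function with the largest possible number of values separates points -/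
theorem sep_of_card {k : ℕ} (ρ : (Fin k → F) → ℕ) (hρ : ∀ (c : F) x, c ≠ 0 → ρ (c • x) = ρ x)
    (hN : {r : ℕ | ∃ x, x ≠ 0 ∧ ρ x = r}.ncard =
      (Fintype.card F ^ k - 1) / (Fintype.card F - 1)) {x y : Fin k → F} (hx : x ≠ 0)
    (hy : y ≠ 0) (hxy : ρ x = ρ y) : ∃ c : F, y = c • x := by
  classical
  by_contra hcon
  have hq2 : 2 ≤ Fintype.card F := Fintype.one_lt_card
  obtain ⟨S, hS⟩ : ∃ S : Finset (Fin k → F), S = Finset.univ.filter (fun x => x ≠ 0) := ⟨_, rfl⟩
  have hmem : ∀ z, z ∈ S ↔ z ≠ 0 := fun z => by simp [hS]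
  have e : {r : ℕ | ∃ x, x ≠ 0 ∧ ρ x = r} = (S.image ρ : Finset ℕ) := by
    ext r
    simp only [Finset.coe_image, Set.mem_image, Finset.mem_coe, hmem, Set.mem_ofPred_eq]
  rw [e, Set.ncard_coe_finset] at hN
  have hc := Finset.card_eq_sum_card_image ρ S
  have hline : ∀ z : Fin k → F, z ≠ 0 →
      ((Finset.univ.filter (fun c : F => c ≠ 0)).image (fun c : F => c • z)).card =
        Fintype.card F - 1 ∧
      (Finset.univ.filter (fun c : F => c ≠ 0)).image (fun c : F => c • z) ⊆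
        S.filter (fun w => ρ w = ρ z) := by
    intro z hz
    refine ⟨?_, fun w hw => ?_⟩
    · rw [Finset.card_image_of_injective _ (smul_left_injective F hz), Finset.filter_ne',
        Finset.card_erase_of_mem (Finset.mem_univ _), Finset.card_univ]
    · obtain ⟨c, hc, rfl⟩ := Finset.mem_image.1 hw
      have hc0 : c ≠ 0 := (Finset.mem_filter.1 hc).2
      exact Finset.mem_filter.2 ⟨(hmem _).2 (smul_ne_zero hc0 hz), hρ c z hc0⟩
  have hlt : ∑ _r ∈ S.image ρ, (Fintype.card F - 1) <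
      ∑ r ∈ S.image ρ, (S.filter (fun w => ρ w = r)).card := by
    refine Finset.sum_lt_sum (fun r hr => ?_) ⟨ρ x, Finset.mem_image_of_mem _ ((hmem x).2 hx), ?_⟩
    · obtain ⟨z, hz, rfl⟩ := Finset.mem_image.1 hr
      obtain ⟨h1, h2⟩ := hline z ((hmem z).1 hz)
      exact h1 ▸ Finset.card_le_card h2
    · obtain ⟨h1, h2⟩ := hline x hx
      rw [← h1]
      refine Finset.card_lt_card ⟨h2, fun h3 => hcon ?_⟩
      obtain ⟨c, -, hc⟩ := Finset.mem_image.1
        (h3 (Finset.mem_filter.2 ⟨(hmem y).2 hy, hxy.symm⟩))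
      exact ⟨c, hc.symm⟩
  have hScard : S.card = Fintype.card F ^ k - 1 := by
    rw [hS, Finset.filter_ne', Finset.card_erase_of_mem (Finset.mem_univ _), Finset.card_univ]
    simp
  rw [← hc, hScard, Finset.sum_const, smul_eq_mul, hN, geom_div _ _ hq2, mul_comm] at hlt
  have := geom_mul (Fintype.card F) k hq2
  omega

theorem rep_of_inS {k m n : ℕ} (h : InS F k m n) :
    ∃ D : (Fin k → F) → ℕ, Rep F D m n ∧ (∀ x, x ≠ 0 → D x < n) ∧
      ∀ x y, x ≠ 0 → y ≠ 0 → D x = D y → ∃ c : F, y = c • x := by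
  classical
  obtain ⟨-, -, C, hdim, hN⟩ := h
  let e : (Fin k → F) ≃ₗ[F] C := LinearEquiv.ofFinrankEq _ _ (by simp [hdim])
  let T : (Fin k → F) →ₗ[F] Matrix (Fin m) (Fin n) F := C.subtype ∘ₗ e.toLinearMap
  have hT0 : ∀ x, x ≠ 0 → T x ≠ 0 := fun x hx h0 =>
    hx (e.map_eq_zero_iff.1 (Subtype.ext h0))
  let A : (Fin k → F) →ₗ[F] ((Fin n → F) →ₗ[F] (Fin m → F)) :=
    (Matrix.toLin' (R := F) (m := Fin m) (n := Fin n)).toLinearMap ∘ₗ T
  have hA : ∀ x, (T x).rank + finrank F (LinearMap.ker (A x)) = n := by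
    intro x
    have e3 := LinearMap.finrank_range_add_finrank_ker (A x)
    rw [finrank_fin_fun] at e3
    exact e3
  refine ⟨fun x => finrank F (LinearMap.ker (A x)), ⟨A, fun _ => rfl⟩, fun x hx => ?_,
    fun x y hx hy hxy => ?_⟩
  · have h1 : LinearMap.ker (A x) ≠ ⊤ := by
      intro h2
      have h3 : Matrix.toLin' (T x) = 0 := LinearMap.ker_eq_top.1 h2
      exact hT0 x hx (Matrix.toLin'.map_eq_zero_iff.1 h3)
    have h4 := Submodule.finrank_lt h1
    rwa [finrank_fin_fun] at h4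
  · refine sep_of_card (fun x => (T x).rank) (fun c z hc => ?_) ?_ hx hy ?_
    · simp only [map_smul]
      exact rank_smul' _ hc
    · rw [← hN]
      congr 1
      ext r
      constructor
      · rintro ⟨z, hz, rfl⟩
        exact ⟨T z, (e z).2, hT0 z hz, rfl⟩
      · rintro ⟨B, hB, h0, rfl⟩
        have h5 : T (e.symm ⟨B, hB⟩) = B := by
          change ((e (e.symm ⟨B, hB⟩) : C) : Matrix (Fin m) (Fin n) F) = B
          rw [e.apply_symm_apply]
        exact ⟨e.symm ⟨B, hB⟩, fun h6 => h0 (by rw [← h5, h6, map_zero]), by rw [h5]⟩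
    · have h1 := hA x
      have h2 := hA y
      simp only at hxy ⊢
      omega

theorem inS_mono {k m n m' n' : ℕ} (h : InS F k m n) (hm : m ≤ m') (hn : n ≤ n') :
    InS F k m' n' := by
  obtain ⟨D, hD, h1, h2⟩ := rep_of_inS h
  exact inS_of_rep hD hm hn (h.1.trans_le hm) (h.2.1.trans_le hn) h1 h2

/-- subspaces of dimensions at most `n, n - 1, …, 0` do not cover a space of dimension `> n` -/
theorem exists_notMem {W : Type} [AddCommGroup W] [Module F W] [FiniteDimensional F W] {n : ℕ}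
    (hW : n < finrank F W) (P : ℕ → Submodule F W) (hP : ∀ d, d ≤ n → finrank F (P d) ≤ n - d) :
    ∃ v : W, ∀ d, d ≤ n → v ∉ P d := by
  classical
  have : Finite W := Module.finite_of_finite F
  have := Fintype.ofFinite W
  have hq2 : 2 ≤ Fintype.card F := Fintype.one_lt_card
  by_contra hcon
  push Not at hcon
  have h1 : (Finset.univ : Finset W) ⊆
      (Finset.range (n + 1)).biUnion (fun d => Finset.univ.filter (fun v => v ∈ P d)) := by
    intro v _
    obtain ⟨d, hd, hv⟩ := hcon v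
    exact Finset.mem_biUnion.2 ⟨d, Finset.mem_range.2 (by omega), by simpa using hv⟩
  have h2 := (Finset.card_le_card h1).trans Finset.card_biUnion_le
  have h3 : ∑ d ∈ Finset.range (n + 1), (Finset.univ.filter (fun v => v ∈ P d)).card ≤
      ∑ d ∈ Finset.range (n + 1), Fintype.card F ^ (n - d) := by
    refine Finset.sum_le_sum fun d hd => ?_
    rw [← Fintype.card_subtype, Module.card_eq_pow_finrank (K := F) (V := P d)]
    exact Nat.pow_le_pow_right (by omega) (hP d (by have := Finset.mem_range.1 hd; omega))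
  have h4 : ∑ d ∈ Finset.range (n + 1), Fintype.card F ^ (n - d) =
      ∑ d ∈ Finset.range (n + 1), Fintype.card F ^ d :=
    Finset.sum_flip (fun d => Fintype.card F ^ d)
  have h5 : ∑ d ∈ Finset.range (n + 1), Fintype.card F ^ d < Fintype.card F ^ (n + 1) :=
    Nat.geomSum_lt hq2 (fun d hd => Finset.mem_range.1 hd)
  have h6 : Fintype.card F ^ (n + 1) ≤ Fintype.card F ^ finrank F W :=
    Nat.pow_le_pow_right (by omega) hW
  rw [Finset.card_univ, Module.card_eq_pow_finrank (K := F) (V := W)] at h2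
  omega

theorem Rep.drop {V : Type} [AddCommGroup V] [Module F V] {D : V → ℕ} {m n : ℕ}
    (h : Rep F D (m + 1) n) (hnm : n ≤ m)
    (hinj : ∀ x y, x ≠ 0 → y ≠ 0 → D x = D y → ∃ c : F, y = c • x) : Rep F D m n := by
  classical
  have hle := h.le
  obtain ⟨A, hA⟩ := h
  obtain ⟨P, hP1, hP2⟩ : ∃ P : ℕ → Submodule F (Fin (m + 1) → F),
      (∀ d, d ≤ n → finrank F (P d) ≤ n - d) ∧
        ∀ x, x ≠ 0 → LinearMap.range (A x) ≤ P (D x) := by
    refine ⟨fun d => if h : ∃ x, x ≠ 0 ∧ D x = d then LinearMap.range (A h.choose) else ⊥,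
      fun d _ => ?_, fun x hx => ?_⟩
    · beta_reduce
      by_cases h : ∃ x, x ≠ 0 ∧ D x = d
      · rw [dif_pos h]
        have e3 := LinearMap.finrank_range_add_finrank_ker (A h.choose)
        rw [finrank_fin_fun, hA, h.choose_spec.2] at e3
        omega
      · rw [dif_neg h, finrank_bot]
        exact Nat.zero_le _
    · have h : ∃ y, y ≠ 0 ∧ D y = D x := ⟨x, hx, rfl⟩
      beta_reduce
      rw [dif_pos h]
      obtain ⟨c, hc⟩ := hinj _ x h.choose_spec.1 hx h.choose_spec.2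
      rintro _ ⟨u, rfl⟩
      refine ⟨c • u, ?_⟩
      rw [map_smul, ← LinearMap.smul_apply, ← map_smul, ← hc]
  obtain ⟨v, hv⟩ := exists_notMem (n := n) (by rw [finrank_fin_fun]; omega) P hP1
  have hv0 : v ≠ 0 := fun h0 => hv n le_rfl (h0 ▸ Submodule.zero_mem _)
  have hvr : ∀ x, v ∉ LinearMap.range (A x) := by
    intro x hx
    by_cases h0 : x = 0
    · rw [h0, map_zero, LinearMap.range_zero] at hx
      exact hv0 hx
    · exact hv (D x) (hle x) (hP2 x h0 hx)
  have hq : finrank F ((Fin (m + 1) → F) ⧸ Submodule.span F {v}) = m := by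
    have h1 := Submodule.finrank_quotient_add_finrank (Submodule.span F {v})
    rw [finrank_span_singleton hv0, finrank_fin_fun] at h1
    omega
  refine Rep.of_types (finrank_fin_fun F) hq
    (LinearMap.compRight F (Submodule.span F {v}).mkQ ∘ₗ A) fun x => ?_
  rw [← hA x]
  suffices hk : LinearMap.ker ((LinearMap.compRight F (Submodule.span F {v}).mkQ ∘ₗ A) x) =
      LinearMap.ker (A x) by rw [hk]
  ext u
  change (Submodule.span F {v}).mkQ (A x u) = 0 ↔ A x u = 0
  rw [Submodule.mkQ_apply, Submodule.Quotient.mk_eq_zero, Submodule.mem_span_singleton]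
  refine ⟨?_, fun h0 => ⟨0, by rw [h0, zero_smul]⟩⟩
  rintro ⟨c, hc⟩
  by_cases hc0 : c = 0
  · rw [← hc, hc0, zero_smul]
  · refine absurd ⟨c⁻¹ • u, ?_⟩ (hvr x)
    rw [map_smul, ← hc, smul_smul, inv_mul_cancel₀ hc0, one_smul]

theorem Rep.square {V : Type} [AddCommGroup V] [Module F V] {D : V → ℕ} {m n : ℕ}
    (h : Rep F D m n) (hnm : n ≤ m)
    (hinj : ∀ x y, x ≠ 0 → y ≠ 0 → D x = D y → ∃ c : F, y = c • x) : Rep F D n n := by
  induction m, hnm using Nat.le_induction with
  | base => exact h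
  | succ m hm ih => exact ih (h.drop hm hinj)

theorem inS_square {k m n : ℕ} (h : InS F k m n) (hnm : n ≤ m) : InS F k n n := by
  obtain ⟨D, hD, h1, h2⟩ := rep_of_inS h
  exact inS_of_rep (hD.square hnm h2) le_rfl le_rfl h.2.1 h.2.1 h1 h2

theorem inS_iff_min {k : ℕ} (hk : 1 ≤ k) (m n : ℕ) :
    InS F k m n ↔ sInf {n' : ℕ | ∃ m', InS F k m' n'} ≤ min m n := by
  refine ⟨fun h => le_min (Nat.sInf_le ⟨n, inS_symm h⟩) (Nat.sInf_le ⟨m, h⟩), fun h => ?_⟩
  have hne : {n' : ℕ | ∃ m', InS F k m' n'}.Nonempty :=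
    ⟨Fintype.card F ^ k + 30 * Fintype.card F ^ (k - 1),
      Fintype.card F ^ k + 30 * Fintype.card F ^ (k - 1), upper hk (by omega)⟩
  obtain ⟨m', hm'⟩ := Nat.sInf_mem hne
  have h1 := inS_square hm' (Nat.sInf_le ⟨_, inS_symm hm'⟩)
  exact inS_mono h1 (h.trans (min_le_left _ _)) (h.trans (min_le_right _ _))

end Pool.Agent.MP_bfa999_lc
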