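import Pool.Agent.MP_bfa999_lc.Mg.Square
import Pool.Agent.MP_bfa999_lc.Ham

/-!
Over the field with three elements, in dimension three: a `20 × 20` MWS matrix code, and no
Hamming MWS code of length at most `20`.
-/

namespace Pool.Agent.MP_bfa999_lc

open Module

section Block

variable {F : Type} [Field F] {V : Type} [AddCommGroup V] [Module F V]

/-- the triangular map `(u, v) ↦ (a u + c v, b v)` -/
def tri (a b c : F) : F × F →ₗ[F] F × F where
  toFun p := (a * p.1 + c * p.2, b * p.2)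
  map_add' p r := by ext <;> simp only [Prod.fst_add, Prod.snd_add] <;> ring
  map_smul' t p := by
    ext <;> simp only [Prod.smul_fst, Prod.smul_snd, smul_eq_mul, RingHom.id_apply] <;> ring

theorem tri_apply (a b c : F) (p : F × F) : tri a b c p = (a * p.1 + c * p.2, b * p.2) := rfl

theorem finrank_ker_tri [DecidableEq F] (a b c : F) : finrank F (LinearMap.ker (tri a b c)) =
    if a = 0 ∧ b = 0 ∧ c = 0 then 2 else if a = 0 ∨ b = 0 then 1 else 0 := by
  have h2 : finrank F (F × F) = 2 := by simp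
  split_ifs with h1 h3
  · obtain ⟨rfl, rfl, rfl⟩ := h1
    have : LinearMap.ker (tri (0 : F) 0 0) = ⊤ := by
      rw [eq_top_iff]
      intro p _
      rw [LinearMap.mem_ker, tri_apply]
      simp
    rw [this, finrank_top, h2]
  · have ht : LinearMap.ker (tri a b c) ≠ ⊤ := by
      intro h
      have e1 : ((1, 0) : F × F) ∈ LinearMap.ker (tri a b c) := h ▸ Submodule.mem_top
      have e2 : ((0, 1) : F × F) ∈ LinearMap.ker (tri a b c) := h ▸ Submodule.mem_top
      rw [LinearMap.mem_ker, tri_apply] at e1 e2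
      simp only [mul_one, mul_zero, add_zero, zero_add, Prod.mk_eq_zero] at e1 e2
      exact h1 ⟨e1.1, e2.2, e2.1⟩
    have hb : LinearMap.ker (tri a b c) ≠ ⊥ := by
      rw [Submodule.ne_bot_iff]
      by_cases ha : a = 0
      · refine ⟨(1, 0), ?_, by simp⟩
        rw [LinearMap.mem_ker, tri_apply]
        simp [ha]
      · refine ⟨(-c, a), ?_, by simp [ha]⟩
        rw [LinearMap.mem_ker, tri_apply, h3.resolve_left ha]
        ext
        · simp only [Prod.fst_zero]; ring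
        · simp
    have h4 := Submodule.finrank_lt ht
    have h5 : finrank F (LinearMap.ker (tri a b c)) ≠ 0 := fun h =>
      hb (Submodule.finrank_eq_zero.1 h)
    omega
  · push Not at h3
    have : LinearMap.ker (tri a b c) = ⊥ := by
      rw [eq_bot_iff]
      intro p hp
      rw [LinearMap.mem_ker, tri_apply, Prod.mk_eq_zero] at hp
      have e2 : p.2 = 0 := (mul_eq_zero.1 hp.2).resolve_left h3.2
      have e1 : p.1 = 0 := by
        have := hp.1
        rw [e2, mul_zero, add_zero] at this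
        exact (mul_eq_zero.1 this).resolve_left h3.1
      exact Prod.ext e1 e2
    rw [this, finrank_bot]

theorem Rep.block [DecidableEq F] (a b c : V →ₗ[F] F) :
    Rep F (fun x => if a x = 0 ∧ b x = 0 ∧ c x = 0 then 2 else if a x = 0 ∨ b x = 0 then 1 else 0)
      2 2 := by
  let T : V →ₗ[F] (F × F →ₗ[F] F × F) :=
    { toFun := fun x => tri (a x) (b x) (c x)
      map_add' := fun x y => by
        refine LinearMap.ext fun p => ?_
        simp only [map_add, LinearMap.add_apply, tri_apply, Prod.mk_add_mk]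
        ext <;> simp only <;> ring
      map_smul' := fun t x => by
        refine LinearMap.ext fun p => ?_
        simp only [map_smul, LinearMap.smul_apply, tri_apply, Prod.smul_mk, smul_eq_mul,
          RingHom.id_apply]
        ext <;> simp only <;> ring }
  exact Rep.of_types (by simp) (by simp) T fun x => finrank_ker_tri _ _ _

theorem Rep.hyp' [DecidableEq F] (l : V →ₗ[F] F) :
    Rep F (fun x => if l x = 0 then 1 else 0) 1 1 :=
  (Rep.hyp l).congr (fun _ => by congr) rfl rfl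

end Block

/-- the linear form with coefficients `r, s, t` -/
def lf (r s t : ZMod 3) : (Fin 3 → ZMod 3) →ₗ[ZMod 3] ZMod 3 :=
  r • LinearMap.proj 0 + s • LinearMap.proj 1 + t • LinearMap.proj 2

theorem lf_apply (r s t : ZMod 3) (x : Fin 3 → ZMod 3) :
    lf r s t x = r * x 0 + s * x 1 + t * x 2 := rfl

/-- indicator of a line -/
def ind (r s t x y z : ZMod 3) : ℕ := if r * x + s * y + t * z = 0 then 1 else 0

/-- the corank function of the code -/
def D3 (x y z : ZMod 3) : ℕ :=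
  3 * ind 0 1 0 x y z + 1 * ind 0 1 2 x y z + 2 * ind 1 0 1 x y z + 7 * ind 1 2 0 x y z +
    1 * ind 1 2 1 x y z + 4 * ind 1 2 2 x y z +
    if 0 * x + 1 * y + 2 * z = 0 ∧ 1 * x + 2 * y + 0 * z = 0 ∧ 1 * x + 0 * y + 0 * z = 0 then 2
    else if 0 * x + 1 * y + 2 * z = 0 ∨ 1 * x + 2 * y + 0 * z = 0 then 1 else 0

theorem rep_D3 : Rep (ZMod 3) (fun x : Fin 3 → ZMod 3 => D3 (x 0) (x 1) (x 2)) 20 20 :=
  ((((((((Rep.hyp' (lf 0 1 0)).mul 3).add ((Rep.hyp' (lf 0 1 2)).mul 1)).add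
    ((Rep.hyp' (lf 1 0 1)).mul 2)).add ((Rep.hyp' (lf 1 2 0)).mul 7)).add
    ((Rep.hyp' (lf 1 2 1)).mul 1)).add ((Rep.hyp' (lf 1 2 2)).mul 4)).add
    (Rep.block (lf 0 1 2) (lf 1 2 0) (lf 1 0 0))).congr (fun _ => rfl) rfl rfl

theorem D3_lt : ∀ x y z : ZMod 3, ¬ (x = 0 ∧ y = 0 ∧ z = 0) → D3 x y z < 20 := by decide

theorem D3_inj : ∀ x y z x' y' z' : ZMod 3, ¬ (x = 0 ∧ y = 0 ∧ z = 0) →
    ¬ (x' = 0 ∧ y' = 0 ∧ z' = 0) → D3 x y z = D3 x' y' z' →
      ∃ c : ZMod 3, x' = c * x ∧ y' = c * y ∧ z' = c * z := by decide +kernel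

theorem ne_zero_three {x : Fin 3 → ZMod 3} (hx : x ≠ 0) : ¬ (x 0 = 0 ∧ x 1 = 0 ∧ x 2 = 0) := by
  rintro ⟨h0, h1, h2⟩
  apply hx
  ext i
  fin_cases i
  exacts [h0, h1, h2]

theorem inS_twenty : InS (ZMod 3) 3 20 20 := by
  refine inS_of_rep rep_D3 le_rfl le_rfl (by norm_num) (by norm_num)
    (fun x hx => D3_lt _ _ _ (ne_zero_three hx)) fun x y hx hy h => ?_
  obtain ⟨c, h0, h1, h2⟩ := D3_inj _ _ _ _ _ _ (ne_zero_three hx) (ne_zero_three hy) h
  refine ⟨c, ?_⟩
  ext i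
  fin_cases i
  exacts [h0, h1, h2]

/-- representatives of the thirteen points of the plane -/
def pt : Fin 13 → Fin 3 → ZMod 3 :=
  ![![0, 0, 1], ![0, 1, 0], ![0, 1, 1], ![0, 1, 2], ![1, 0, 0], ![1, 0, 1], ![1, 0, 2],
    ![1, 1, 0], ![1, 1, 1], ![1, 1, 2], ![1, 2, 0], ![1, 2, 1], ![1, 2, 2]]

/-- indicator of the complement of a line -/
def nz (r s t : ZMod 3) (j : Fin 13) : ℕ :=
  if r * pt j 0 + s * pt j 1 + t * pt j 2 = 0 then 0 else 1

/-- indicator of a nonzero form -/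
def nf (r s t : ZMod 3) : ℕ := if r = 0 ∧ s = 0 ∧ t = 0 then 0 else 1

theorem pt_ne : ∀ j, pt j ≠ 0 := by decide

theorem pt_sep : ∀ i j, ∀ c : ZMod 3, pt j = c • pt i → i = j := by decide +kernel

theorem nz_le : ∀ r s t j, nz r s t j ≤ nf r s t := by decide +kernel

theorem nf_le : ∀ r s t, nf r s t ≤ 1 := by decide

theorem nz_sum : ∀ r s t, ∑ j, nz r s t j = 9 * nf r s t := by decide +kernel

theorem nz_sum_mul : ∀ r s t r' s' t', 3 ∣ ∑ j, nz r s t j * nz r' s' t' j := by decide +kernel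

theorem no_weights (w : Fin 13 → ℕ) (hw : Function.Injective w) {n : ℕ} (hn : n ≤ 20)
    (hle : ∀ j, w j ≤ n) (h1 : ∑ j, w j = 9 * n) (h2 : 3 ∣ ∑ j, w j * w j) : False := by
  obtain ⟨f, hf⟩ : ∃ f : Fin 13 → ℕ, f = w ∘ Tuple.sort w := ⟨_, rfl⟩
  have hm : StrictMono f := by
    rw [hf]
    exact (Tuple.monotone_sort w).strictMono_of_injective (hw.comp (Tuple.sort w).injective)
  have e1 : ∑ j, f j = 9 * n := by
    rw [← h1, hf]
    exact Equiv.sum_comp (Tuple.sort w) w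
  have e2 : 3 ∣ ∑ j, f j * f j := by
    have := Equiv.sum_comp (Tuple.sort w) (fun j => w j * w j)
    rw [← this] at h2
    rw [hf]
    exact h2
  have e3 : f 12 ≤ n := by rw [hf]; exact hle _
  have a0 : f 0 < f 1 := hm (by decide)
  have a1 : f 1 < f 2 := hm (by decide)
  have a2 : f 2 < f 3 := hm (by decide)
  have a3 : f 3 < f 4 := hm (by decide)
  have a4 : f 4 < f 5 := hm (by decide)
  have a5 : f 5 < f 6 := hm (by decide)
  have a6 : f 6 < f 7 := hm (by decide)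
  have a7 : f 7 < f 8 := hm (by decide)
  have a8 : f 8 < f 9 := hm (by decide)
  have a9 : f 9 < f 10 := hm (by decide)
  have a10 : f 10 < f 11 := hm (by decide)
  have a11 : f 11 < f 12 := hm (by decide)
  have s1 : ∀ g : Fin 13 → ℕ, ∑ j, g j = g 0 + g 1 + g 2 + g 3 + g 4 + g 5 + g 6 + g 7 + g 8 +
      g 9 + g 10 + g 11 + g 12 := by
    intro g
    simp only [Fin.sum_univ_castSucc, Fin.sum_univ_zero, zero_add]
    rfl
  rw [s1] at e1 e2
  have b2 : f 2 = 10 := by omega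
  have b3 : f 3 = 11 := by omega
  have b4 : f 4 = 12 := by omega
  have b5 : f 5 = 13 := by omega
  have b6 : f 6 = 14 := by omega
  have b7 : f 7 = 15 := by omega
  have b8 : f 8 = 16 := by omega
  have b9 : f 9 = 17 := by omega
  have b10 : f 10 = 18 := by omega
  have b11 : f 11 = 19 := by omega
  have b12 : f 12 = 20 := by omega
  have b01 : (f 0 = 6 ∧ f 1 = 9) ∨ (f 0 = 7 ∧ f 1 = 8) := by omega
  rw [b2, b3, b4, b5, b6, b7, b8, b9, b10, b11, b12] at e2
  rcases b01 with ⟨b0, b1⟩ | ⟨b0, b1⟩ <;> rw [b0, b1] at e2 <;> omega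

theorem ham_gt {n : ℕ} (h : HamMWS (ZMod 3) 3 n) : 20 < n := by
  by_contra hn
  obtain ⟨C, hdim, hN⟩ := h
  let e : (Fin 3 → ZMod 3) ≃ₗ[ZMod 3] C := LinearEquiv.ofFinrankEq _ _ (by simp [hdim])
  obtain ⟨G, hG1, hG2⟩ : ∃ G : (Fin 3 → ZMod 3) →ₗ[ZMod 3] (Fin n → ZMod 3),
      (∀ x, G x ∈ C ∧ (x ≠ 0 → G x ≠ 0)) ∧ ∀ c ∈ C, ∃ x, G x = c := by
    refine ⟨C.subtype ∘ₗ e.toLinearMap, fun x => ⟨(e x).2, fun hx h0 =>
      hx (e.map_eq_zero_iff.1 (Subtype.ext h0))⟩, fun c hc => ⟨e.symm ⟨c, hc⟩, ?_⟩⟩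
    change ((e (e.symm ⟨c, hc⟩) : C) : Fin n → ZMod 3) = c
    rw [e.apply_symm_apply]
  have hsep : ∀ x y : Fin 3 → ZMod 3, x ≠ 0 → y ≠ 0 → hammingNorm (G x) = hammingNorm (G y) →
      ∃ c : ZMod 3, y = c • x := by
    intro x y hx hy hxy
    refine sep_of_card (fun x => hammingNorm (G x)) (fun c z hc => ?_) ?_ hx hy hxy
    · simp only [map_smul]
      exact hammingNorm_smul (fun _ => IsSMulRegular.of_ne_zero hc) _
    · rw [← hN]
      congr 1
      ext r
      constructor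
      · rintro ⟨z, hz, rfl⟩
        exact ⟨G z, (hG1 z).1, (hG1 z).2 hz, rfl⟩
      · rintro ⟨c, hc, h0, rfl⟩
        obtain ⟨x, rfl⟩ := hG2 c hc
        exact ⟨x, fun h6 => h0 (by rw [h6, map_zero]), rfl⟩
  obtain ⟨r, s, t, hrst⟩ : ∃ r s t : Fin n → ZMod 3, ∀ x i,
      G x i = r i * x 0 + s i * x 1 + t i * x 2 := by
    refine ⟨G (Pi.single 0 1), G (Pi.single 1 1), G (Pi.single 2 1), fun x i => ?_⟩
    have hx : x = x 0 • Pi.single 0 1 + x 1 • Pi.single 1 1 + x 2 • Pi.single 2 1 := by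
      ext j
      fin_cases j <;> simp
    conv_lhs => rw [hx]
    simp only [map_add, map_smul, Pi.add_apply, Pi.smul_apply, smul_eq_mul]
    ring
  have hw : ∀ j, hammingNorm (G (pt j)) = ∑ i, nz (r i) (s i) (t i) j := by
    intro j
    rw [hammingNorm, Finset.card_filter]
    refine Finset.sum_congr rfl fun i _ => ?_
    rw [hrst, nz]
    exact ite_not _ _ _
  refine no_weights (fun j => ∑ i, nz (r i) (s i) (t i) j) (fun i j hij => ?_)
    (n := ∑ i, nf (r i) (s i) (t i)) ?_ (fun j => Finset.sum_le_sum fun i _ => nz_le _ _ _ _) ?_ ?_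
  · obtain ⟨c, hc⟩ := hsep _ _ (pt_ne i) (pt_ne j) (by rw [hw, hw]; exact hij)
    exact pt_sep i j c hc
  · have := Finset.sum_le_card_nsmul Finset.univ (fun i => nf (r i) (s i) (t i)) 1
      fun i _ => nf_le _ _ _
    simp only [Finset.card_univ, Fintype.card_fin, smul_eq_mul, mul_one] at this
    omega
  · rw [Finset.sum_comm, Finset.mul_sum]
    exact Finset.sum_congr rfl fun i _ => nz_sum _ _ _
  · simp only [Finset.sum_mul_sum]
    rw [Finset.sum_comm]
    refine Finset.dvd_sum fun i _ => ?_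
    rw [Finset.sum_comm]
    exact Finset.dvd_sum fun i' _ => nz_sum_mul _ _ _ _ _ _

/-- rows of a generator matrix of a Hamming MWS code of length `22` -/
def g0 : Fin 22 → ZMod 3 := ![0, 0, 0, 0, 0, 0, 0, 0, 0, 1, 1, 1, 1, 1, 1, 1, 1, 1, 1, 1, 1, 1]

/-- second row -/
def g1 : Fin 22 → ZMod 3 := ![1, 1, 1, 1, 1, 1, 1, 1, 1, 0, 1, 1, 1, 1, 1, 1, 1, 1, 2, 2, 2, 2]

/-- third row -/
def g2 : Fin 22 → ZMod 3 := ![0, 2, 2, 2, 2, 2, 2, 2, 2, 1, 0, 0, 0, 0, 0, 0, 2, 2, 0, 0, 0, 0]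

/-- the encoding map -/
def enc : (Fin 3 → ZMod 3) →ₗ[ZMod 3] (Fin 22 → ZMod 3) :=
  (LinearMap.proj 0).smulRight g0 + (LinearMap.proj 1).smulRight g1 +
    (LinearMap.proj 2).smulRight g2

theorem enc_apply (x : Fin 3 → ZMod 3) : enc x = x 0 • g0 + x 1 • g1 + x 2 • g2 := rfl

/-- the weights -/
def wts : Finset ℕ := {7, 10, 11, 12, 13, 14, 15, 16, 18, 19, 20, 21, 22}

theorem enc_mem : ∀ x y z : ZMod 3, ¬ (x = 0 ∧ y = 0 ∧ z = 0) →
    hammingNorm (x • g0 + y • g1 + z • g2) ∈ wts := by decide +kernel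

theorem enc_surj : ∀ w ∈ wts, ∃ x y z : ZMod 3, hammingNorm (x • g0 + y • g1 + z • g2) = w := by
  decide +kernel

theorem ham_22 : HamMWS (ZMod 3) 3 22 := by
  have h0 : (0 : ℕ) ∉ wts := by decide
  have hne : ∀ x, x ≠ 0 → enc x ≠ 0 := by
    intro x hx h
    have h1 := enc_mem _ _ _ (ne_zero_three hx)
    rw [← enc_apply, h, hammingNorm_zero] at h1
    exact h0 h1
  have hinj : Function.Injective enc := by
    rw [← LinearMap.ker_eq_bot, LinearMap.ker_eq_bot']
    intro x hx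
    by_contra h
    exact hne x h hx
  refine ⟨LinearMap.range enc, by rw [LinearMap.finrank_range_of_inj hinj]; simp, ?_⟩
  have e : {w : ℕ | ∃ c ∈ LinearMap.range enc, c ≠ 0 ∧ hammingNorm c = w} = (wts : Set ℕ) := by
    ext w
    constructor
    · rintro ⟨_, ⟨x, rfl⟩, hx, rfl⟩
      exact enc_mem _ _ _ (ne_zero_three fun h => hx (by rw [h, map_zero]))
    · intro hw
      obtain ⟨x, y, z, h⟩ := enc_surj w hw
      refine ⟨enc ![x, y, z], ⟨_, rfl⟩, fun h1 => h0 ?_, h⟩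
      have h2 : hammingNorm (enc ![x, y, z]) = w := h
      rw [h1, hammingNorm_zero] at h2
      rw [h2]
      exact hw
  rw [e, Set.ncard_coe_finset, ZMod.card]
  decide

theorem nmin_lt_ham :
    sInf {n : ℕ | ∃ m, InS (ZMod 3) 3 m n} < sInf {n : ℕ | HamMWS (ZMod 3) 3 n} :=
  lt_of_le_of_lt (Nat.sInf_le ⟨20, inS_twenty⟩)
    (ham_gt (Nat.sInf_mem (s := {n : ℕ | HamMWS (ZMod 3) 3 n}) ⟨22, ham_22⟩))

end Pool.Agent.MP_bfa999_lc
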