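import Pool.Agent.MP_bfa999_lc.Defs

-- part MP_bfa999_lc.Lower
section

namespace Pool.Agent.MP_bfa999_lc

open Module

variable {F : Type} [Field F]

theorem sum_eig_le [Fintype F] {U : Type} [AddCommGroup U] [Module F U] [FiniteDimensional F U]
    (T : Module.End F U) : ∑ c : F, finrank F (T.eigenspace c) ≤ finrank F U := by
  classical
  have h1 : ∑ c : F, finrank F (T.eigenspace c) ≤ ∑ c : F, T.charpoly.roots.count c := by
    refine Finset.sum_le_sum fun c _ => ?_
    rw [Polynomial.count_roots]
    exact LinearMap.finrank_eigenspace_le T c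
  have h2 : ∑ c : F, T.charpoly.roots.count c = Multiset.card T.charpoly.roots :=
    Multiset.sum_count_eq_card (fun _ _ => Finset.mem_univ _)
  have h3 := Polynomial.card_roots' T.charpoly
  rw [LinearMap.charpoly_natDegree] at h3
  omega

theorem pencil_lin [Fintype F] {V W : Type} [AddCommGroup V] [Module F V] [FiniteDimensional F V]
    [AddCommGroup W] [Module F W] [FiniteDimensional F W] (a b : V →ₗ[F] W) :
    ∑ c : F, (finrank F (LinearMap.range a) - finrank F (LinearMap.range (b - c • a)))
      ≤ finrank F (LinearMap.range a) := by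
  classical
  obtain ⟨s, hs⟩ := a.rangeRestrict.exists_rightInverse_of_surjective a.range_rangeRestrict
  obtain ⟨p, hp⟩ := (LinearMap.range a).subtype.exists_leftInverse_of_injective
    (Submodule.ker_subtype _)
  set T : Module.End F (LinearMap.range a) := p ∘ₗ b ∘ₗ s with hT
  refine le_trans (Finset.sum_le_sum fun c _ => ?_) (sum_eig_le T)
  have hid : p ∘ₗ a ∘ₗ s = LinearMap.id := by
    ext1 x
    have h1 : a.rangeRestrict (s x) = x := LinearMap.congr_fun hs x
    have h2 : a (s x) = (x : W) := congrArg Subtype.val h1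
    have h3 : p (x : W) = x := by simpa using LinearMap.congr_fun hp x
    simp [h2, h3]
  have hc : T - c • (1 : Module.End F (LinearMap.range a)) = p ∘ₗ (b - c • a) ∘ₗ s := by
    rw [LinearMap.sub_comp, LinearMap.comp_sub, LinearMap.smul_comp, LinearMap.comp_smul, hid]
    rfl
  have hk : T.eigenspace c = LinearMap.ker (p ∘ₗ (b - c • a) ∘ₗ s) := by
    rw [← hc, Module.End.eigenspace_def]
  have hr : finrank F (LinearMap.range (p ∘ₗ (b - c • a) ∘ₗ s))
      ≤ finrank F (LinearMap.range (b - c • a)) := by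
    rw [LinearMap.range_comp]
    refine le_trans (Submodule.finrank_map_le _ _) ?_
    exact Submodule.finrank_mono (LinearMap.range_comp_le_range _ _)
  have hd := LinearMap.finrank_range_add_finrank_ker (p ∘ₗ (b - c • a) ∘ₗ s)
  rw [hk]
  omega

theorem pencil [Fintype F] {m n : ℕ} (A B : Matrix (Fin m) (Fin n) F) :
    ∑ c : F, (A.rank - (B - c • A).rank) ≤ A.rank := by
  have h := pencil_lin A.mulVecLin B.mulVecLin
  have e : ∀ c : F, B.mulVecLin - c • A.mulVecLin = (B - c • A).mulVecLin := by
    intro c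
    refine LinearMap.ext fun v => ?_
    simp
  have e2 : ∀ c : F, finrank F (LinearMap.range (B.mulVecLin - c • A.mulVecLin))
      = (B - c • A).rank := fun c => by rw [e c]; rfl
  simp only [e2] at h
  exact h

theorem sum_distinct (s : Finset ℕ) : s.card * (s.card - 1) ≤ 2 * ∑ x ∈ s, x := by
  induction s using Finset.induction_on_max with
  | empty => simp
  | insert a s ha ih =>
    have hn : a ∉ s := fun h => lt_irrefl _ (ha a h)
    have hc : s.card ≤ a := by
      have : s ⊆ Finset.range a := fun x hx => Finset.mem_range.2 (ha x hx)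
      simpa using Finset.card_le_card this
    rw [Finset.card_insert_of_notMem hn, Finset.sum_insert hn]
    rcases Nat.eq_zero_or_pos s.card with h0 | h0
    · simp [h0]
    · obtain ⟨t, ht⟩ : ∃ t, s.card = t + 1 := ⟨s.card - 1, by omega⟩
      rw [ht] at ih hc ⊢
      simp only [Nat.add_sub_cancel] at ih ⊢
      nlinarith

theorem geom_div (q k : ℕ) (hq : 2 ≤ q) :
    (q ^ k - 1) / (q - 1) = ∑ i ∈ Finset.range k, q ^ i := (Nat.geomSum_eq hq k).symm

theorem geom_mul (q k : ℕ) (hq : 2 ≤ q) :
    (q - 1) * ∑ i ∈ Finset.range k, q ^ i + 1 = q ^ k := by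
  obtain ⟨p, rfl⟩ : ∃ p, q = p + 1 := ⟨q - 1, by omega⟩
  induction k with
  | zero => simp
  | succ k ih =>
    rw [Finset.sum_range_succ, pow_succ]
    simp only [Nat.add_sub_cancel] at ih ⊢
    nlinarith

theorem rank_smul' {m n : ℕ} (A : Matrix (Fin m) (Fin n) F) {c : F} (hc : c ≠ 0) :
    (c • A).rank = A.rank :=
  Matrix.rank_smul_of_mem_nonZeroDivisors A (mem_nonZeroDivisors_of_ne_zero hc)

/-- lower bound in terms of the maximal rank -/
theorem lower_rank [Fintype F] {m n k : ℕ} (hk : 2 ≤ k)
    (C : Submodule F (Matrix (Fin m) (Fin n) F)) (hC : IsMWS k C) :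
    ∃ A ∈ C, Fintype.card F * ((Fintype.card F ^ k - 1) / (Fintype.card F - 1)) ≤ 2 * A.rank := by
  classical
  obtain ⟨hdim, hN⟩ := hC
  set q := Fintype.card F with hq
  have hq2 : 2 ≤ q := Fintype.one_lt_card
  obtain ⟨j, rfl⟩ : ∃ j, k = j + 1 := ⟨k - 1, by omega⟩
  have hcard : Fintype.card C = q ^ (j + 1) := by
    rw [Module.card_eq_pow_finrank (K := F), hdim]
  set S : Finset C := Finset.univ.filter (fun B => B ≠ 0) with hS
  have hSne : S.Nonempty := by
    have : Nontrivial C := Module.nontrivial_of_finrank_pos (R := F) (by omega)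
    obtain ⟨B, hB⟩ := exists_ne (0 : C)
    exact ⟨B, by simp [hS, hB]⟩
  obtain ⟨A, hAS, hAmax⟩ := Finset.exists_max_image S
    (fun B : C => (B : Matrix (Fin m) (Fin n) F).rank) hSne
  have hA0 : A ≠ 0 := by simpa [hS] using hAS
  refine ⟨A, A.2, ?_⟩
  set ρ := (A : Matrix (Fin m) (Fin n) F).rank with hρ
  set d : C → ℕ := fun B => ρ - (B : Matrix (Fin m) (Fin n) F).rank with hd
  set L : Finset C := Finset.univ.image (fun c : F => c • A) with hL
  have hLcard : L.card = q := by
    rw [hL, Finset.card_image_of_injective _ (smul_left_injective F hA0)]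
    simp [hq]
  -- upper estimate
  have hup : q * ∑ B ∈ Lᶜ, d B ≤ (q ^ (j + 1) - q) * ρ := by
    have h1 : ∀ c : F, ∑ B ∈ Lᶜ, d (B - c • A) = ∑ B ∈ Lᶜ, d B := by
      intro c
      refine Finset.sum_bij' (fun B _ => B - c • A) (fun B _ => B + c • A) ?_ ?_ ?_ ?_ ?_
      · intro B hB
        simp only [hL, Finset.mem_compl, Finset.mem_image, Finset.mem_univ, true_and,
          not_exists] at hB ⊢
        intro x hx
        apply hB (x + c)
        rw [add_smul, hx]; abel
      · intro B hB
        simp only [hL, Finset.mem_compl, Finset.mem_image, Finset.mem_univ, true_and,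
          not_exists] at hB ⊢
        intro x hx
        apply hB (x - c)
        have e : (x - c) • A = x • A - c • A := sub_smul x c A
        rw [e, hx]; abel
      · intro B _; simp
      · intro B _; simp
      · intro B _; rfl
    have h2 : ∑ c : F, ∑ B ∈ Lᶜ, d (B - c • A) = q * ∑ B ∈ Lᶜ, d B := by
      simp only [h1, Finset.sum_const, Finset.card_univ, smul_eq_mul, hq]
    rw [← h2, Finset.sum_comm]
    have h3 : ∀ B ∈ Lᶜ, ∑ c : F, d (B - c • A) ≤ ρ := by
      intro B _
      exact pencil (A : Matrix (Fin m) (Fin n) F) (B : Matrix (Fin m) (Fin n) F)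
    refine le_trans (Finset.sum_le_card_nsmul _ _ _ h3) ?_
    rw [Finset.card_compl, hcard, hLcard, smul_eq_mul]
  have hSL : ∑ B ∈ S, d B ≤ ∑ B ∈ Lᶜ, d B := by
    rw [← Finset.sum_filter_ne_zero S]
    refine Finset.sum_le_sum_of_subset ?_
    intro B hB
    simp only [hS, Finset.mem_filter, Finset.mem_univ, true_and] at hB
    simp only [hL, Finset.mem_compl, Finset.mem_image, Finset.mem_univ, true_and, not_exists]
    rintro x rfl
    have hx : x ≠ 0 := by rintro rfl; simp at hB
    apply hB.2
    have : ((x • A : C) : Matrix (Fin m) (Fin n) F).rank = ρ := rank_smul' _ hx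
    simp only [hd, this, Nat.sub_self]
  -- lower estimate
  set R : Finset ℕ := S.image (fun B : C => (B : Matrix (Fin m) (Fin n) F).rank) with hR
  have hRcard : R.card = (q ^ (j + 1) - 1) / (q - 1) := by
    rw [← hN, ← Set.ncard_coe_finset]
    congr 1
    ext r
    simp only [hR, hS, Finset.coe_image, Finset.coe_filter, Finset.mem_univ, true_and,
      Set.mem_image, Set.mem_ofPred_eq]
    constructor
    · rintro ⟨B, hB, rfl⟩
      exact ⟨B, B.2, fun h => hB (Subtype.ext h), rfl⟩
    · rintro ⟨B, hB, h0, rfl⟩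
      exact ⟨⟨B, hB⟩, fun h => h0 (congrArg Subtype.val h), rfl⟩
  have hlow : (q - 1) * ∑ r ∈ R, (ρ - r) ≤ ∑ B ∈ S, d B := by
    rw [← Finset.sum_fiberwise_of_maps_to (s := S) (t := R)
      (g := fun B : C => (B : Matrix (Fin m) (Fin n) F).rank)
      (fun B hB => Finset.mem_image_of_mem _ hB), Finset.mul_sum]
    refine Finset.sum_le_sum fun r hr => ?_
    obtain ⟨B, hB, hBr⟩ := Finset.mem_image.1 hr
    have hB0 : B ≠ 0 := by simpa [hS] using hB
    have hsub : (Finset.univ.filter (fun c : F => c ≠ 0)).image (fun c : F => c • B) ⊆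
        S.filter (fun B : C => (B : Matrix (Fin m) (Fin n) F).rank = r) := by
      intro X hX
      obtain ⟨c, hc, rfl⟩ := Finset.mem_image.1 hX
      have hc0 : c ≠ 0 := by simpa using hc
      simp only [hS, Finset.mem_filter, Finset.mem_univ, true_and]
      refine ⟨smul_ne_zero hc0 hB0, ?_⟩
      rw [← hBr]
      exact rank_smul' _ hc0
    have hc := Finset.card_le_card hsub
    rw [Finset.card_image_of_injective _ (smul_left_injective F hB0), Finset.filter_ne' ,
      Finset.card_erase_of_mem (Finset.mem_univ _), Finset.card_univ] at hc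
    have : ∑ X ∈ S.filter (fun B : C => (B : Matrix (Fin m) (Fin n) F).rank = r), d X
        = (S.filter (fun B : C => (B : Matrix (Fin m) (Fin n) F).rank = r)).card * (ρ - r) := by
      rw [Finset.sum_const_nat]
      intro X hX
      have := (Finset.mem_filter.1 hX).2
      simp only [hd, this]
    rw [this]
    exact Nat.mul_le_mul_right _ hc
  have hdist : R.card * (R.card - 1) ≤ 2 * ∑ r ∈ R, (ρ - r) := by
    have hinj : Set.InjOn (fun r => ρ - r) (R : Set ℕ) := by
      intro x hx y hy hxy
      obtain ⟨B, hB, rfl⟩ := Finset.mem_image.1 hx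
      obtain ⟨B', hB', rfl⟩ := Finset.mem_image.1 hy
      have h1 := hAmax B hB
      have h2 := hAmax B' hB'
      simp only at hxy h1 h2
      omega
    have := sum_distinct (R.image (fun r => ρ - r))
    rwa [Finset.card_image_of_injOn hinj, Finset.sum_image hinj] at this
  rw [hRcard] at hdist
  rw [geom_div _ _ hq2] at hdist ⊢
  have g1 := geom_mul q (j + 1) hq2
  have g2 := geom_mul q j hq2
  have g3 : ∑ i ∈ Finset.range (j + 1), q ^ i = q * ∑ i ∈ Finset.range j, q ^ i + 1 := by
    rw [Finset.sum_range_succ', Finset.mul_sum]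
    simp [pow_succ, mul_comm]
  set N' := ∑ i ∈ Finset.range j, q ^ i with hN'
  have hN'pos : 0 < N' := by
    obtain ⟨i, rfl⟩ : ∃ i, j = i + 1 := ⟨j - 1, by omega⟩
    rw [hN', Finset.sum_range_succ']
    simp
  rw [g3] at hdist ⊢
  obtain ⟨p, hp⟩ : ∃ p, q = p + 1 := ⟨q - 1, by omega⟩
  have hp0 : 0 < p := by omega
  have e1 : q ^ (j + 1) - q = q * (p * N') := by
    rw [pow_succ, ← g2, hp]
    simp only [Nat.add_sub_cancel]
    rw [add_mul, one_mul, Nat.add_sub_cancel, mul_comm]
  rw [e1, mul_assoc] at hup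
  have hup' := Nat.le_of_mul_le_mul_left hup (by omega)
  have e2 : q - 1 = p := by omega
  rw [e2] at hlow
  simp only [Nat.add_sub_cancel] at hdist
  have h5 : p * ∑ r ∈ R, (ρ - r) ≤ p * (N' * ρ) := by
    calc _ ≤ _ := hlow
      _ ≤ _ := hSL
      _ ≤ _ := hup'
      _ = _ := by ring
  have h6 := Nat.le_of_mul_le_mul_left h5 hp0
  have h7 : N' * (q * (q * N' + 1)) ≤ N' * (2 * ρ) := by nlinarith
  exact Nat.le_of_mul_le_mul_left h7 hN'pos

theorem lower [Fintype F] {m n k : ℕ} (hk : 2 ≤ k) (h : InS F k m n) :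
    Fintype.card F * ((Fintype.card F ^ k - 1) / (Fintype.card F - 1)) ≤ 2 * min m n := by
  obtain ⟨-, -, C, hC⟩ := h
  obtain ⟨A, -, hA⟩ := lower_rank hk C hC
  have h1 := Matrix.rank_le_height A
  have h2 := Matrix.rank_le_width A
  omega

end Pool.Agent.MP_bfa999_lc

end

-- part MP_bfa999_lc.Rep
section

namespace Pool.Agent.MP_bfa999_lc

open Module

/-- `D` is the corank function of a linear family of `m × n` matrices. -/
def Rep (F : Type) [Field F] {V : Type} [AddCommGroup V] [Module F V] (D : V → ℕ) (m n : ℕ) :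
    Prop :=
  ∃ A : V →ₗ[F] ((Fin n → F) →ₗ[F] (Fin m → F)), ∀ x, finrank F (LinearMap.ker (A x)) = D x

variable {F : Type} [Field F] {V : Type} [AddCommGroup V] [Module F V]

theorem Rep.of_types {U W : Type} [AddCommGroup U] [Module F U] [FiniteDimensional F U]
    [AddCommGroup W] [Module F W] [FiniteDimensional F W] {D : V → ℕ} {m n : ℕ}
    (hU : finrank F U = n) (hW : finrank F W = m) (A : V →ₗ[F] (U →ₗ[F] W))
    (hA : ∀ x, finrank F (LinearMap.ker (A x)) = D x) : Rep F D m n := by
  let eU : U ≃ₗ[F] (Fin n → F) := LinearEquiv.ofFinrankEq _ _ (by simp [hU])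
  let eW : W ≃ₗ[F] (Fin m → F) := LinearEquiv.ofFinrankEq _ _ (by simp [hW])
  refine ⟨(LinearEquiv.arrowCongr eU eW).toLinearMap ∘ₗ A, fun x => ?_⟩
  rw [← hA x]
  have : LinearMap.ker (((LinearEquiv.arrowCongr eU eW).toLinearMap ∘ₗ A) x)
      = (LinearMap.ker (A x)).map eU.toLinearMap := by
    ext v
    simp only [LinearMap.comp_apply, LinearEquiv.coe_coe, LinearMap.mem_ker,
      LinearEquiv.arrowCongr_apply, EmbeddingLike.map_eq_zero_iff, Submodule.mem_map]
    constructor
    · intro h
      exact ⟨eU.symm v, h, by simp⟩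
    · rintro ⟨y, hy, rfl⟩
      simpa using hy
  rw [this, LinearEquiv.finrank_map_eq]

theorem Rep.congr {D D' : V → ℕ} {m n m' n' : ℕ} (h : Rep F D m n) (hD : ∀ x, D x = D' x)
    (hm : m = m') (hn : n = n') : Rep F D' m' n' := by
  subst hm hn
  obtain rfl : D = D' := funext hD
  exact h

theorem Rep.le {D : V → ℕ} {m n : ℕ} (h : Rep F D m n) (x : V) : D x ≤ n := by
  obtain ⟨A, hA⟩ := h
  rw [← hA x]
  simpa using Submodule.finrank_le (LinearMap.ker (A x))

theorem finrank_sub_prod {U W : Type} [AddCommGroup U] [Module F U] [FiniteDimensional F U]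
    [AddCommGroup W] [Module F W] [FiniteDimensional F W] (p : Submodule F U) (r : Submodule F W) :
    finrank F (p.prod r) = finrank F p + finrank F r := by
  have hinj : Function.Injective (LinearMap.prodMap p.subtype r.subtype) := by
    rw [← LinearMap.ker_eq_bot, LinearMap.ker_prodMap]
    simp
  have h := LinearMap.finrank_range_of_inj hinj
  rw [LinearMap.range_prodMap, Submodule.range_subtype, Submodule.range_subtype,
    Module.finrank_prod] at h
  exact h

theorem Rep.zero : Rep F (fun _ : V => 0) 0 0 := by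
  refine ⟨0, fun x => ?_⟩
  have := Submodule.finrank_le (LinearMap.ker ((0 : V →ₗ[F] ((Fin 0 → F) →ₗ[F] (Fin 0 → F))) x))
  simpa using this

theorem Rep.add {D D' : V → ℕ} {m n m' n' : ℕ} (h : Rep F D m n) (h' : Rep F D' m' n') :
    Rep F (fun x => D x + D' x) (m + m') (n + n') := by
  obtain ⟨A, hA⟩ := h
  obtain ⟨B, hB⟩ := h'
  let T : V →ₗ[F] (((Fin n → F) × (Fin n' → F)) →ₗ[F] ((Fin m → F) × (Fin m' → F))) :=
    { toFun := fun x => LinearMap.prodMap (A x) (B x)
      map_add' := fun x y => by
        refine LinearMap.ext fun v => ?_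
        simp
      map_smul' := fun c x => by
        refine LinearMap.ext fun v => ?_
        simp }
  refine Rep.of_types (by simp) (by simp) T fun x => ?_
  change finrank F (LinearMap.ker (LinearMap.prodMap (A x) (B x))) = _
  rw [LinearMap.ker_prodMap, finrank_sub_prod, hA, hB]

theorem Rep.mul {D : V → ℕ} {m n : ℕ} (h : Rep F D m n) (a : ℕ) :
    Rep F (fun x => a * D x) (a * m) (a * n) := by
  induction a with
  | zero => exact Rep.zero.congr (by simp) (by simp) (by simp)
  | succ a ih => exact (ih.add h).congr (fun x => by ring) (by ring) (by ring)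

theorem Rep.sum {ι : Type} (s : Finset ι) {D : ι → V → ℕ} {m n : ι → ℕ}
    (h : ∀ i ∈ s, Rep F (D i) (m i) (n i)) :
    Rep F (fun x => ∑ i ∈ s, D i x) (∑ i ∈ s, m i) (∑ i ∈ s, n i) := by
  classical
  induction s using Finset.induction_on with
  | empty => exact Rep.zero.congr (by simp) (by simp) (by simp)
  | insert a s ha ih =>
    refine ((h a (by simp)).add (ih fun i hi => h i (by simp [hi]))).congr (fun x => ?_) ?_ ?_ <;>
      rw [Finset.sum_insert ha]

open Classical in
theorem Rep.base {W : Type} [AddCommGroup W] [Module F W] [FiniteDimensional F W]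
    (φ : V →ₗ[F] W) : Rep F (fun x => if φ x = 0 then 1 else 0) (finrank F W) 1 := by
  let T : V →ₗ[F] (F →ₗ[F] W) :=
    { toFun := fun x => LinearMap.toSpanSingleton F W (φ x)
      map_add' := fun x y => by
        refine LinearMap.ext fun v => ?_
        simp
      map_smul' := fun c x => by
        refine LinearMap.ext fun v => ?_
        simp [smul_comm v c] }
  refine Rep.of_types (by simp) rfl T fun x => ?_
  change finrank F (LinearMap.ker (LinearMap.toSpanSingleton F W (φ x))) = _
  split_ifs with hx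
  · rw [hx, LinearMap.toSpanSingleton_zero, LinearMap.ker_zero, finrank_top, finrank_self]
  · rw [LinearMap.ker_toSpanSingleton F hx]
    simp

open Classical in
theorem Rep.hyp (l : V →ₗ[F] F) : Rep F (fun x => if l x = 0 then 1 else 0) 1 1 :=
  (Rep.base l).congr (fun _ => rfl) (by simp) rfl

open Classical in
theorem Rep.stack {V' : Type} [AddCommGroup V'] [Module F V'] {D : V' → ℕ} {m n : ℕ}
    (h : Rep F D m n) (p : V →ₗ[F] V') (l : V →ₗ[F] F) :
    Rep F (fun x => if l x = 0 then D (p x) else 0) (m + n) n := by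
  obtain ⟨A, hA⟩ := h
  let T : V →ₗ[F] ((Fin n → F) →ₗ[F] ((Fin m → F) × (Fin n → F))) :=
    { toFun := fun x => LinearMap.prod (A (p x)) (l x • LinearMap.id)
      map_add' := fun x y => by
        refine LinearMap.ext fun v => ?_
        simp [add_smul]
      map_smul' := fun c x => by
        refine LinearMap.ext fun v => ?_
        simp [mul_smul] }
  refine Rep.of_types (by simp) (by simp) T fun x => ?_
  change finrank F (LinearMap.ker (LinearMap.prod (A (p x)) (l x • LinearMap.id))) = _
  rw [LinearMap.ker_prod]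
  split_ifs with hx
  · rw [hx, zero_smul, LinearMap.ker_zero, inf_top_eq, hA]
  · rw [LinearMap.ker_smul _ _ hx, LinearMap.ker_id, inf_bot_eq, finrank_bot]

theorem inS_of_rep [Fintype F] {k m n m₀ n₀ : ℕ} {D : (Fin k → F) → ℕ} (h : Rep F D m₀ n₀)
    (hm : m₀ ≤ m) (hn : n₀ ≤ n) (hm0 : 0 < m) (hn0 : 0 < n)
    (hlt : ∀ x, x ≠ 0 → D x < n₀)
    (hinj : ∀ x y, x ≠ 0 → y ≠ 0 → D x = D y → ∃ c : F, y = c • x) : InS F k m n := by
  classical
  have hle := h.le
  obtain ⟨A, hA⟩ := h
  obtain ⟨ι, hι⟩ : ∃ ι : (Fin m₀ → F) →ₗ[F] (Fin m → F), Function.Injective ι := by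
    apply finrank_le_iff_exists_linearMap.1
    simpa using hm
  obtain ⟨σ, hσ⟩ : ∃ σ : (Fin n₀ → F) →ₗ[F] (Fin n → F), Function.Injective σ := by
    apply finrank_le_iff_exists_linearMap.1
    simpa using hn
  obtain ⟨π, hπ⟩ := σ.exists_leftInverse_of_injective (LinearMap.ker_eq_bot.2 hσ)
  have hπs : LinearMap.range π = ⊤ := by
    rw [LinearMap.range_eq_top]
    intro v
    exact ⟨σ v, LinearMap.congr_fun hπ v⟩
  let T : (Fin k → F) →ₗ[F] Matrix (Fin m) (Fin n) F :=
    { toFun := fun x => LinearMap.toMatrix' (ι ∘ₗ A x ∘ₗ π)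
      map_add' := fun x y => by
        rw [map_add, LinearMap.add_comp, LinearMap.comp_add, map_add]
      map_smul' := fun c x => by
        rw [map_smul, LinearMap.smul_comp, LinearMap.comp_smul, map_smul]; rfl }
  have hT : ∀ x, (T x).rank + D x = n₀ := by
    intro x
    have e1 : (T x).mulVecLin = ι ∘ₗ A x ∘ₗ π := by
      change Matrix.toLin' (LinearMap.toMatrix' (ι ∘ₗ A x ∘ₗ π)) = _
      rw [Matrix.toLin'_toMatrix']
    have e2 : (T x).rank = finrank F (LinearMap.range (A x)) := by
      unfold Matrix.rank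
      rw [e1, LinearMap.range_comp, LinearMap.range_comp_of_range_eq_top _ hπs]
      exact (Submodule.equivMapOfInjective ι hι _).finrank_eq.symm
    have e3 := LinearMap.finrank_range_add_finrank_ker (A x)
    rw [e2, ← hA x, e3]
    simp
  have hT0 : ∀ x, x ≠ 0 → T x ≠ 0 := by
    intro x hx h0
    have h1 := hT x
    have h2 := hlt x hx
    rw [h0, Matrix.rank_zero] at h1
    omega
  have hTinj : Function.Injective T := by
    rw [← LinearMap.ker_eq_bot, LinearMap.ker_eq_bot']
    intro x hx
    by_contra h0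
    exact hT0 x h0 hx
  refine ⟨hm0, hn0, LinearMap.range T, ?_, ?_⟩
  · rw [LinearMap.finrank_range_of_inj hTinj]
    simp
  · set q := Fintype.card F with hq
    have hq2 : 2 ≤ q := Fintype.one_lt_card
    set S : Finset (Fin k → F) := Finset.univ.filter (fun x => x ≠ 0) with hS
    have e : {r : ℕ | ∃ B ∈ LinearMap.range T, B ≠ 0 ∧ B.rank = r}
        = (S.image (fun x => (T x).rank) : Finset ℕ) := by
      ext r
      simp only [hS, Finset.coe_image, Finset.coe_filter, Finset.mem_univ, true_and,
        Set.mem_image, Set.mem_ofPred_eq, LinearMap.mem_range]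
      constructor
      · rintro ⟨B, ⟨x, rfl⟩, h0, rfl⟩
        exact ⟨x, fun hx => h0 (by rw [hx, map_zero]), rfl⟩
      · rintro ⟨x, hx, rfl⟩
        exact ⟨T x, ⟨x, rfl⟩, hT0 x hx, rfl⟩
    rw [e, Set.ncard_coe_finset]
    have hc := Finset.card_eq_sum_card_image (fun x => (T x).rank) S
    have hfib : ∀ r ∈ S.image (fun x => (T x).rank),
        (S.filter (fun x => (T x).rank = r)).card = q - 1 := by
      intro r hr
      obtain ⟨x, hx, rfl⟩ := Finset.mem_image.1 hr
      have hx0 : x ≠ 0 := by simpa [hS] using hx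
      have : S.filter (fun y => (T y).rank = (T x).rank)
          = (Finset.univ.filter (fun c : F => c ≠ 0)).image (fun c : F => c • x) := by
        ext y
        simp only [hS, Finset.mem_filter, Finset.mem_univ, true_and, Finset.mem_image]
        constructor
        · rintro ⟨hy, hr⟩
          have h1 := hT x
          have h2 := hT y
          obtain ⟨c, rfl⟩ := hinj x y hx0 hy (by omega)
          exact ⟨c, fun hc => hy (by rw [hc, zero_smul]), rfl⟩
        · rintro ⟨c, hc, rfl⟩
          refine ⟨smul_ne_zero hc hx0, ?_⟩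
          rw [map_smul, rank_smul' _ hc]
      rw [this, Finset.card_image_of_injective _ (smul_left_injective F hx0), Finset.filter_ne',
        Finset.card_erase_of_mem (Finset.mem_univ _), Finset.card_univ]
    rw [Finset.sum_const_nat hfib] at hc
    have hScard : S.card = q ^ k - 1 := by
      rw [hS, Finset.filter_ne', Finset.card_erase_of_mem (Finset.mem_univ _), Finset.card_univ]
      simp [hq]
    rw [← hScard, hc, Nat.mul_div_cancel _ (by omega)]

end Pool.Agent.MP_bfa999_lc

end

-- part MP_bfa999_lc.Upper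
section

namespace Pool.Agent.MP_bfa999_lc

open Module

def H (q : ℕ) {k : ℕ} (f : Fin k → ℕ) : ℕ := ∑ i : Fin k, f i * q ^ (k - 1 - (i : ℕ))

theorem H_succ (q : ℕ) {k : ℕ} (f : Fin (k + 1) → ℕ) :
    H q f = f 0 * q ^ k + H q (fun i : Fin k => f i.succ) := by
  unfold H
  rw [Fin.sum_univ_succ]
  congr 1
  refine Finset.sum_congr rfl fun i _ => ?_
  congr 2
  simp only [Fin.val_succ]
  omega

theorem H_last (q : ℕ) {k : ℕ} (f : Fin (k + 1) → ℕ) :
    H q f = q * H q (fun i : Fin k => f i.castSucc) + f (Fin.last k) := by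
  unfold H
  rw [Fin.sum_univ_castSucc, Finset.mul_sum]
  congr 1
  · refine Finset.sum_congr rfl fun i _ => ?_
    have : k + 1 - 1 - (i.castSucc : ℕ) = (k - 1 - (i : ℕ)) + 1 := by
      have := i.2
      simp only [Fin.val_castSucc]
      omega
    rw [this, pow_succ]
    ring
  · simp

theorem H_add (q : ℕ) {k : ℕ} (f g : Fin k → ℕ) :
    H q f + H q g = H q (fun i => f i + g i) := by
  unfold H
  rw [← Finset.sum_add_distrib]
  exact Finset.sum_congr rfl fun i _ => by ring

theorem H_bound (p : ℕ) {k : ℕ} (B : ℕ) (f : Fin k → ℕ) (hf : ∀ i, f i ≤ B) :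
    p * H (p + 1) f + B ≤ B * (p + 1) ^ k := by
  induction k with
  | zero => simp [H]
  | succ k ih =>
    rw [H_succ, pow_succ]
    have h1 := ih (fun i => f i.succ) (fun i => hf _)
    have h2 := Nat.mul_le_mul_right ((p + 1) ^ k) (hf 0)
    have h3 := Nat.mul_le_mul_left p h2
    nlinarith

theorem H_inj {α : Type} (q : ℕ) (hq : 0 < q) (φ : α → ℕ)
    (hφ : ∀ u v, φ u % q = φ v % q → u = v) {k : ℕ} (u v : Fin k → α)
    (h : H q (fun i => φ (u i)) = H q (fun i => φ (v i))) : u = v := by
  induction k with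
  | zero => exact Subsingleton.elim _ _
  | succ k ih =>
    rw [H_last, H_last] at h
    have h1 : u (Fin.last k) = v (Fin.last k) := by
      apply hφ
      have := congrArg (· % q) h
      simpa [Nat.mul_add_mod] using this
    rw [h1] at h
    have h2 := Nat.eq_of_mul_eq_mul_left hq (Nat.add_right_cancel h)
    have h3 := ih (fun i => u i.castSucc) (fun i => v i.castSucc) h2
    funext i
    refine Fin.lastCases h1 (fun j => congrFun h3 j) i

variable {F : Type} [Field F]

theorem Rep.H {V : Type} [AddCommGroup V] [Module F V] (q : ℕ) {k : ℕ} {D : Fin k → V → ℕ}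
    {m : Fin k → ℕ} (h : ∀ i, Rep F (D i) (m i) (m i)) :
    Rep F (fun x => H q (fun i => D i x)) (H q m) (H q m) := by
  refine (Rep.sum Finset.univ fun i _ => (h i).mul (q ^ (k - 1 - (i : ℕ)))).congr
    (fun x => ?_) ?_ ?_ <;> exact Finset.sum_congr rfl fun i _ => mul_comm _ _

variable [Fintype F]

noncomputable def dig (c : F) : ℕ := (Fintype.equivFin F c : ℕ)

omit [Field F] in
theorem dig_lt (c : F) : dig c < Fintype.card F := (Fintype.equivFin F c).2

omit [Field F] in
theorem dig_inj {c c' : F} (h : dig c = dig c') : c = c' :=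
  (Fintype.equivFin F).injective (Fin.ext h)

noncomputable def EE (F : Type) [Field F] [Fintype F] : ℕ := ∑ c : F, dig c

theorem EE_eq : EE F * 2 = Fintype.card F * (Fintype.card F - 1) := by
  rw [← Finset.sum_range_id_mul_two, ← Fin.sum_univ_eq_sum_range (fun i => i)]
  congr 1
  exact Equiv.sum_comp (Fintype.equivFin F) (fun i => (i : ℕ))

open Classical in
noncomputable def pen (u v : F) : ℕ := ∑ c : F, dig c * if u - c * v = 0 then 1 else 0

theorem pen_zero (u : F) : pen u 0 = open Classical in if u = 0 then EE F else 0 := by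
  unfold pen EE
  split_ifs with h <;> simp [h]

theorem pen_ne (u v : F) (hv : v ≠ 0) : pen u v = dig (u / v) := by
  unfold pen
  rw [Finset.sum_eq_single (u / v)]
  · rw [if_pos (by field_simp; ring), mul_one]
  · intro c _ hc
    rw [if_neg, mul_zero]
    intro h
    apply hc
    field_simp
    linear_combination -h
  · simp

theorem rep_pen {V : Type} [AddCommGroup V] [Module F V] (l l' : V →ₗ[F] F) :
    Rep F (fun x => pen (l x) (l' x)) (EE F) (EE F) := by
  refine (Rep.sum Finset.univ fun (c : F) _ => (Rep.hyp (l - c • l')).mul (dig c)).congr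
    (fun x => ?_) (by simp [EE]) (by simp [EE])
  unfold pen
  refine Finset.sum_congr rfl fun c _ => ?_
  simp

open Classical in
noncomputable def DD : (k : ℕ) → (Fin k → F) → ℕ
  | 0, _ => 0
  | k + 1, x => H (Fintype.card F) (fun i : Fin k => pen (x i.succ) (x 0))
      + 2 * Fintype.card F ^ k * (if x 0 = 0 then 1 else 0)
      + if x 0 = 0 then
          H (Fintype.card F) (fun i : Fin k =>
            (if (i : ℕ) = 0 then 0 else EE F) * if x i.succ = 0 then 1 else 0)
          + DD k (fun i => x i.succ) else 0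

theorem size1 (k : ℕ) : 2 * H (Fintype.card F) (fun _ : Fin k => EE F)
    ≤ Fintype.card F ^ (k + 1) := by
  have hq2 : 2 ≤ Fintype.card F := Fintype.one_lt_card
  have hE := EE_eq (F := F)
  obtain ⟨p, hp⟩ : ∃ p, Fintype.card F = p + 1 := ⟨Fintype.card F - 1, by omega⟩
  rw [hp] at hE ⊢
  simp only [Nat.add_sub_cancel] at hE
  have h := H_bound p (EE F) (fun _ : Fin k => EE F) (fun _ => le_rfl)
  have hp0 : 0 < p := by omega
  refine Nat.le_of_mul_le_mul_left ?_ hp0
  have h2 : EE F * (p + 1) ^ k * 2 = p * (p + 1) ^ (k + 1) := by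
    rw [mul_right_comm, hE, pow_succ]; ring
  nlinarith

theorem size2 (k : ℕ) :
    2 * H (Fintype.card F) (fun i : Fin k => (if (i : ℕ) = 0 then 0 else EE F) * 1)
    ≤ Fintype.card F ^ k := by
  cases k with
  | zero => simp [H]
  | succ k =>
    rw [H_succ]
    simpa using size1 (F := F) k

theorem rep_DD (k : ℕ) : ∃ m n, Rep F (DD (F := F) k) m n ∧
    Fintype.card F * (2 * n) ≤ Fintype.card F ^ (k + 1) + 12 * Fintype.card F ^ k ∧
    Fintype.card F * (2 * m) ≤ Fintype.card F ^ (k + 1) + 28 * Fintype.card F ^ k := by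
  classical
  induction k with
  | zero => exact ⟨0, 0, Rep.zero, by simp, by simp⟩
  | succ k ih =>
    obtain ⟨m, n, hr, hn, hm⟩ := ih
    have hq2 : 2 ≤ Fintype.card F := Fintype.one_lt_card
    have r1 := Rep.H (F := F) (Fintype.card F) (k := k)
      (D := fun i (x : Fin (k + 1) → F) => pen (x i.succ) (x 0)) (m := fun _ => EE F)
      (fun i => rep_pen (F := F) (V := Fin (k + 1) → F) (LinearMap.proj i.succ)
        (LinearMap.proj 0))
    have r2 := (Rep.hyp (F := F) (V := Fin (k + 1) → F) (LinearMap.proj 0)).mul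
      (2 * Fintype.card F ^ k)
    have r3 := Rep.H (F := F) (Fintype.card F) (k := k)
      (D := fun i (y : Fin k → F) => (if (i : ℕ) = 0 then 0 else EE F) * if y i = 0 then 1 else 0)
      (m := fun i => (if (i : ℕ) = 0 then 0 else EE F) * 1)
      (fun i => (Rep.hyp (F := F) (V := Fin k → F) (LinearMap.proj i)).mul
        (if (i : ℕ) = 0 then 0 else EE F))
    have r4 := (r3.add hr).stack (V := Fin (k + 1) → F) (LinearMap.funLeft F F Fin.succ)
      (LinearMap.proj 0)
    have s1 := size1 (F := F) k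
    have s2 := size2 (F := F) k
    refine ⟨_, _, ((r1.add r2).add r4).congr (fun x => ?_) rfl rfl, ?_, ?_⟩
    · rw [DD]
      rfl
    · set q := Fintype.card F
      rw [pow_succ] at s1 hn
      rw [pow_succ, pow_succ]
      have t1 := Nat.mul_le_mul_left q s1
      have t2 := Nat.mul_le_mul_left q s2
      have t3 := Nat.mul_le_mul_right (q ^ k) hq2
      nlinarith
    · set q := Fintype.card F
      rw [pow_succ] at s1 hn hm
      rw [pow_succ, pow_succ]
      have t1 := Nat.mul_le_mul_left q s1
      have t2 := Nat.mul_le_mul_left q s2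
      have t3 := Nat.mul_le_mul_right (q ^ k) hq2
      nlinarith

open Classical in
noncomputable def GG (k a z : ℕ) (x : Fin k → F) : ℕ :=
  DD k x + H (Fintype.card F) (fun i : Fin k =>
    if x i = 0 then (if (i : ℕ) = 0 then a else 2 * EE F * z) else 0)

theorem GG_zero (k a z : ℕ) (x : Fin (k + 1) → F) (hx : x 0 = 0) :
    GG (k + 1) a z x = (a + 2) * Fintype.card F ^ k
      + GG k ((2 * z + 1) * EE F) (z + 1) (fun i => x i.succ) := by
  classical
  unfold GG
  rw [DD, H_succ, if_pos hx, if_pos hx, if_pos hx, hx]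
  have key : H (Fintype.card F) (fun i : Fin k => pen (x i.succ) 0)
      + H (Fintype.card F) (fun i : Fin k =>
            (if (i : ℕ) = 0 then 0 else EE F) * if x i.succ = 0 then 1 else 0)
      + H (Fintype.card F) (fun i : Fin k =>
          if x i.succ = 0 then (if ((i.succ : Fin (k + 1)) : ℕ) = 0 then a else 2 * EE F * z)
          else 0)
      = H (Fintype.card F) (fun i : Fin k =>
          if x i.succ = 0 then (if (i : ℕ) = 0 then (2 * z + 1) * EE F else 2 * EE F * (z + 1))
          else 0) := by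
    rw [H_add, H_add]
    congr 1
    funext i
    rw [pen_zero]
    simp only [Fin.val_succ, Nat.add_one_ne_zero, if_false]
    split_ifs <;> ring
  rw [← key]
  simp only [Fin.val_zero, if_true]
  ring

open Classical in
noncomputable def phi (z : ℕ) (u : F) : ℕ := dig u + if u = 0 then 2 * EE F * z else 0

theorem GG_ne (k a z : ℕ) (x : Fin (k + 1) → F) (hx : x 0 ≠ 0) :
    GG (k + 1) a z x = H (Fintype.card F) (fun i : Fin k => phi z (x i.succ / x 0)) := by
  classical
  unfold GG
  rw [DD, H_succ, if_neg hx, if_neg hx, if_neg hx]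
  simp only [mul_zero, add_zero, zero_mul, zero_add]
  rw [H_add]
  congr 1
  funext i
  rw [pen_ne _ _ hx]
  simp [phi, hx]

theorem phi_mod (z : ℕ) (u : F) : phi z u % Fintype.card F = dig u := by
  unfold phi
  split_ifs
  · rw [mul_comm 2, EE_eq, mul_assoc, Nat.add_mul_mod_self_left, Nat.mod_eq_of_lt (dig_lt u)]
  · rw [add_zero, Nat.mod_eq_of_lt (dig_lt u)]

theorem GG_lt (k a z : ℕ) (haz : 2 * z * EE F ≤ a + EE F) (x : Fin (k + 1) → F) (hx : x 0 ≠ 0) :
    GG (k + 1) a z x < (a + 2) * Fintype.card F ^ k := by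
  rw [GG_ne k a z x hx]
  have hq2 : 2 ≤ Fintype.card F := Fintype.one_lt_card
  have hE := EE_eq (F := F)
  have hb : ∀ u : F, phi z u ≤ Fintype.card F - 1 + 2 * EE F * z := by
    intro u
    have := dig_lt u
    unfold phi
    split_ifs <;> omega
  obtain ⟨p, hp⟩ : ∃ p, Fintype.card F = p + 1 := ⟨Fintype.card F - 1, by omega⟩
  rw [hp] at hE hb ⊢
  simp only [Nat.add_sub_cancel] at hE hb
  have hp0 : 0 < p := by omega
  have h := H_bound p (p + 2 * EE F * z) (fun i : Fin k => phi z (x i.succ / x 0)) (fun i => hb _)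
  have hB : p + 2 * EE F * z ≤ p * (a + 2) := by
    rcases Nat.eq_zero_or_pos z with rfl | hz
    · nlinarith
    · rcases Nat.lt_or_ge p 2 with h2 | h2
      · obtain rfl : p = 1 := by omega
        have : EE F = 1 := by omega
        rw [this] at haz ⊢
        omega
      · have h3 : EE F ≤ z * EE F := Nat.le_mul_of_pos_left _ hz
        have h4 := Nat.mul_le_mul_right a h2
        nlinarith
  have h5 := Nat.mul_le_mul_right ((p + 1) ^ k) hB
  refine Nat.lt_of_mul_lt_mul_left (a := p) ?_
  nlinarith

theorem GG_inj (k : ℕ) : ∀ a z : ℕ, 2 * z * EE F ≤ a + EE F → ∀ x y : Fin k → F, x ≠ 0 → y ≠ 0 →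
    GG k a z x = GG k a z y → ∃ c : F, y = c • x := by
  induction k with
  | zero => intro a z _ x y hx; exact absurd (Subsingleton.elim _ _) hx
  | succ k ih =>
    intro a z haz x y hx hy h
    have hq2 : 2 ≤ Fintype.card F := Fintype.one_lt_card
    have tail_ne : ∀ w : Fin (k + 1) → F, w ≠ 0 → w 0 = 0 → (fun i : Fin k => w i.succ) ≠ 0 := by
      intro w hw h0 ht
      apply hw
      funext i
      exact Fin.cases h0 (fun j => congrFun ht j) i
    by_cases hx0 : x 0 = 0 <;> by_cases hy0 : y 0 = 0
    · rw [GG_zero k a z x hx0, GG_zero k a z y hy0] at h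
      obtain ⟨c, hc⟩ := ih ((2 * z + 1) * EE F) (z + 1) (by nlinarith) _ _ (tail_ne x hx hx0)
        (tail_ne y hy hy0) (Nat.add_left_cancel h)
      refine ⟨c, funext fun i => ?_⟩
      refine Fin.cases ?_ (fun j => congrFun hc j) i
      simp [hx0, hy0]
    · have := GG_lt k a z haz y hy0
      rw [GG_zero k a z x hx0] at h
      omega
    · have := GG_lt k a z haz x hx0
      rw [GG_zero k a z y hy0] at h
      omega
    · rw [GG_ne k a z x hx0, GG_ne k a z y hy0] at h
      have := H_inj (Fintype.card F) (by omega) (phi (F := F) z)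
        (fun u v huv => dig_inj (by rwa [phi_mod, phi_mod] at huv)) _ _ h
      refine ⟨y 0 / x 0, funext fun i => ?_⟩
      refine Fin.cases ?_ (fun j => ?_) i
      · simp [hx0]
      · have h2 : x j.succ / x 0 = y j.succ / y 0 := congrFun this j
        simp only [Pi.smul_apply, smul_eq_mul]
        field_simp at h2 ⊢
        linear_combination -h2

theorem upper {k m n : ℕ} (hk : 1 ≤ k)
    (h : Fintype.card F ^ k + 30 * Fintype.card F ^ (k - 1) ≤ 2 * min m n) : InS F k m n := by
  classical
  have hq2 : 2 ≤ Fintype.card F := Fintype.one_lt_card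
  obtain ⟨j, rfl⟩ : ∃ j, k = j + 1 := ⟨k - 1, by omega⟩
  obtain ⟨m₀, n₀, hr, hn, hm⟩ := rep_DD (F := F) (j + 1)
  have r := hr.add (Rep.base (F := F) (V := Fin (j + 1) → F) LinearMap.id)
  set q := Fintype.card F with hq
  simp only [Nat.add_sub_cancel] at h
  have hj : j + 1 ≤ q ^ j := le_trans Nat.lt_two_pow_self (Nat.pow_le_pow_left hq2 j)
  have hn' : 2 * n₀ ≤ q ^ (j + 1) + 12 * q ^ j := by
    refine Nat.le_of_mul_le_mul_left (le_trans hn (le_of_eq ?_)) (by omega : 0 < q)
    ring
  have hm' : 2 * m₀ ≤ q ^ (j + 1) + 28 * q ^ j := by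
    refine Nat.le_of_mul_le_mul_left (le_trans hm (le_of_eq ?_)) (by omega : 0 < q)
    ring
  refine inS_of_rep r ?_ (by omega) (by omega) (by omega) ?_ ?_
  · simp only [finrank_fin_fun]
    omega
  · intro x hx
    have := hr.le x
    simp only [LinearMap.id_apply, if_neg hx]
    omega
  · intro x y hx hy hxy
    simp only [LinearMap.id_apply, if_neg hx, if_neg hy, add_zero] at hxy
    refine GG_inj (j + 1) 0 0 (by simp) x y hx hy ?_
    unfold GG
    rw [hxy]
    simp

theorem upper_two {m n : ℕ} (h : Fintype.card F * (Fintype.card F + 1) ≤ 2 * min m n) :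
    InS F 2 m n := by
  classical
  have hq2 : 2 ≤ Fintype.card F := Fintype.one_lt_card
  have hE := EE_eq (F := F)
  have r : Rep F (fun x : Fin 2 → F => pen (x 1) (x 0) + Fintype.card F * if x 0 = 0 then 1 else 0)
      (EE F + Fintype.card F * 1) (EE F + Fintype.card F * 1) :=
    (rep_pen (F := F) (V := Fin 2 → F) (LinearMap.proj 1) (LinearMap.proj 0)).add
    ((Rep.hyp (F := F) (V := Fin 2 → F) (LinearMap.proj 0)).mul (Fintype.card F))
  obtain ⟨p, hp⟩ : ∃ p, Fintype.card F = p + 1 := ⟨Fintype.card F - 1, by omega⟩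
  have hE' : EE F * 2 = (p + 1) * p := by rw [hE, hp]; simp
  have h' : (p + 1) * (p + 2) ≤ 2 * min m n := by rw [hp] at h; exact h
  have hp1 : 1 ≤ p := by omega
  have hE0 : 0 < EE F := by nlinarith
  have hs : 2 * (EE F + Fintype.card F * 1) ≤ 2 * min m n := by rw [hp]; nlinarith
  have v0 : ∀ x : Fin 2 → F, x ≠ 0 → x 0 = 0 → x 1 ≠ 0 := by
    intro x hx h0 h1
    apply hx
    funext i
    fin_cases i
    · exact h0
    · exact h1
  refine inS_of_rep r (by omega) (by omega) (by omega) (by omega) ?_ ?_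
  · intro x hx
    by_cases h0 : x 0 = 0
    · rw [if_pos h0, h0, pen_zero, if_neg (v0 x hx h0)]
      omega
    · rw [pen_ne _ _ h0, if_neg h0]
      have := dig_lt (x 1 / x 0)
      omega
  · intro x y hx hy hxy
    by_cases hx0 : x 0 = 0 <;> by_cases hy0 : y 0 = 0
    · refine ⟨y 1 / x 1, funext fun i => ?_⟩
      have := v0 x hx hx0
      fin_cases i
      · simp [hx0, hy0]
      · simp [this]
    · rw [if_pos hx0, hx0, pen_zero, if_neg (v0 x hx hx0), pen_ne _ _ hy0, if_neg hy0] at hxy
      have := dig_lt (y 1 / y 0)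
      omega
    · rw [if_pos hy0, hy0, pen_zero, if_neg (v0 y hy hy0), pen_ne _ _ hx0, if_neg hx0] at hxy
      have := dig_lt (x 1 / x 0)
      omega
    · rw [pen_ne _ _ hx0, pen_ne _ _ hy0, if_neg hx0, if_neg hy0] at hxy
      have h2 := dig_inj (Nat.add_right_cancel hxy)
      refine ⟨y 0 / x 0, funext fun i => ?_⟩
      fin_cases i
      · simp [hx0]
      · simp only [Fin.mk_one, Pi.smul_apply, smul_eq_mul]
        field_simp at h2 ⊢
        linear_combination -h2

end Pool.Agent.MP_bfa999_lc

end
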